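import Pool.Agent.Lib.MP_446a91_nt.Gal.PBridge

namespace Pool.Agent.Results.MP_446a91_nt.DeligneIhara

open Pool.Agent.Lib.MP_446a91_nt Pool.Agent.Lib.MP_446a91_nt.DI

/-- Deligne-Ihara: for every prime `l` the graded Lie algebra `⨁ (I^m / I^(m + 1)) ⊗ ℚ_l` of the
outer Galois action on the pro-`l` fundamental group of `ℙ¹ ∖ {0, 1, ∞}` is isomorphic to
`grt ⊗ ℚ_l` with Ihara's bracket. -/
theorem result : ∃ B : FL →ₗ[ℚ] FL →ₗ[ℚ] FL, IsIhara B ∧ ∀ (l : ℕ) [Fact l.Prime],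
    HasLifts (AlgebraicClosure ℚ) (RatFunc (AlgebraicClosure ℚ))
      (DI.maxExt l (AlgebraicClosure ℚ) (RatFunc (AlgebraicClosure ℚ))
        (AlgebraicClosure (RatFunc (AlgebraicClosure ℚ)))) ∧
    ∃ I : ℕ+ → Subgroup (AlgebraicClosure ℚ ≃ₐ[ℚ] AlgebraicClosure ℚ),
      (∀ m : ℕ+, (I m : Set (AlgebraicClosure ℚ ≃ₐ[ℚ] AlgebraicClosure ℚ)) =
        DI.II (AlgebraicClosure ℚ) (RatFunc (AlgebraicClosure ℚ))
          (DI.maxExt l (AlgebraicClosure ℚ) (RatFunc (AlgebraicClosure ℚ))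
            (AlgebraicClosure (RatFunc (AlgebraicClosure ℚ)))) m) ∧
      GrIso ℤ_[l] (fun m => (grt m).baseChange ℚ_[l])
        (LinearMap.BilinMap.baseChange ℚ_[l] B) I := by
  obtain ⟨B, hB, -⟩ := free_generators ℚ
  exact ⟨B, hB, fun l _ => Gal.di_main l hB⟩

end Pool.Agent.Results.MP_446a91_nt.DeligneIhara
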