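import Pool.Agent.Lib.MP_446a91_nt.DD.Plus

namespace Pool.Agent.Results.MP_446a91_nt.FreeGrt

open Pool.Agent.Lib.MP_446a91_nt
open scoped TensorProduct

/-- Deligne-Drinfeld: over any field `K` of characteristic zero, `grt ⊗ K` with Ihara's bracket is
freely generated by any family of elements of degrees `3, 5, 7, …` with nonzero depth one
coefficients, and such families exist. -/
theorem result (K : Type) [Field K] [CharZero K] :
    ∃ B : FL →ₗ[ℚ] FL →ₗ[ℚ] FL, IsIhara B ∧ (∃ σ, IsGens K σ) ∧ ∀ σ, IsGens K σ →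
      ∃ F : K ⊗[ℚ] LMot →ₗ[K] K ⊗[ℚ] FL, (∀ k, F (1 ⊗ₜ FreeLieAlgebra.of ℚ k) = σ k) ∧
        Function.Injective F ∧
        (∀ n, ((degMot n).baseChange K).map F = (grt n).baseChange K) ∧
        ∀ u v, F ⁅u, v⁆ = LinearMap.BilinMap.baseChange K B (F u) (F v) :=
  free_generators K

end Pool.Agent.Results.MP_446a91_nt.FreeGrt
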